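import Pool.Agent.Helper53.WR.Defs

/-!
# Project WR, piece A4: window bound
-/

set_option autoImplicit false

namespace Pool.Agent.Helper42.WR

open Finset
open Pool.Agent.Helper53.WR

/-- WR-A4 (window bound). -/
theorem window_bound (T : Finset ℕ) (f S : ℕ) (hf : ∀ n, repF T n ≤ f) (x : ℕ) :
    (T.filter (fun t => x ≤ t ∧ t < x + S)).card ^ 2 ≤ 2 * S * f := by
  classical
  set W : Finset ℕ := T.filter (fun t => x ≤ t ∧ t < x + S) with hW
  have h1 : (W ×ˢ W).card ≤ f * (Finset.Ico (2 * x) (2 * x + 2 * S)).card := by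
    refine Finset.card_le_mul_card_image_of_maps_to (f := fun p : ℕ × ℕ => p.1 + p.2) ?_ f ?_
    · intro p hp
      rw [Finset.mem_product] at hp
      have ha := (Finset.mem_filter.mp hp.1).2
      have hb := (Finset.mem_filter.mp hp.2).2
      rw [Finset.mem_Ico]
      omega
    · intro n _
      refine le_trans (Finset.card_le_card ?_) (hf n)
      intro p hp
      rw [Finset.mem_filter, Finset.mem_product] at hp
      rw [Finset.mem_filter, Finset.mem_product]
      exact ⟨⟨(Finset.mem_filter.mp hp.1.1).1, (Finset.mem_filter.mp hp.1.2).1⟩, hp.2⟩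
  rw [Finset.card_product, Nat.card_Ico] at h1
  calc W.card ^ 2 = W.card * W.card := by ring
    _ ≤ f * (2 * x + 2 * S - 2 * x) := h1
    _ = 2 * S * f := by
        rw [Nat.add_sub_cancel_left]; ring

end Pool.Agent.Helper42.WR
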